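import Pool.Agent.Helper53.Hereditary
import Pool.Agent.Helper53.LeftCase
import Pool.Agent.Helper53.RightFinal

/-!
# MP_e07d6f_an, Q2: `K(E)` as a module over itself

Q2 asks whether `K(E)` is projective, in the relative sense of Banach homology, as a left and as a
right Banach module over itself for every Banach space `E`. Both answers are negative: on the left
already for `E = ℓ¹`, on the right for the Banach space `E` of bounded functions generated by the
singletons and the tails of an uncountable almost disjoint family of sequences (the branches of
the binary tree).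
-/

set_option autoImplicit false

namespace Pool.Agent.Results.MP_e07d6f_an.NotProjectiveOverItself

open Pool.Agent.Helper53

/-- The Banach algebra `K(ℓ¹)` is not projective as a Banach left module over itself, and there is
a complex Banach space `E` such that `K(E)` is not projective as a Banach right module over
itself. -/
theorem result : ¬ LeftProj (leftRegular (KOp (lp (fun _ : ℕ => ℂ) 1))) ∧
    ∃ (E : Type) (_ : NormedAddCommGroup E) (_ : NormedSpace ℂ E),
      CompleteSpace E ∧ ¬ RightProj (rightRegular (KOp E)) := by
  refine ⟨fun h => ?_, Psi.Sp Psi.branch, inferInstance, inferInstance, inferInstance,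
    fun h => ?_⟩
  · have : CompleteSpace (KOp (lp (fun _ : ℕ => ℂ) 1)) :=
      completeSpace_compactOps (lp (fun _ : ℕ => ℂ) 1)
    have h' : LeftProjective (leftRegular (KOp (lp (fun _ : ℕ => ℂ) 1))) := by
      intro Y _ _ _ mY φ hφ hs
      exact h Y (KOp (lp (fun _ : ℕ => ℂ) 1)) mY (leftRegular _) φ
        (ContinuousLinearMap.id ℂ _) hφ (fun _ _ => rfl) hs
    exact not_leftProjective_ell1 h'
  · have : CompleteSpace (KOp (Psi.Sp Psi.branch)) :=
      completeSpace_compactOps (Psi.Sp Psi.branch)
    have h' : RightProjective (rightRegular (KOp (Psi.Sp Psi.branch))) := by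
      intro Y _ _ _ mY φ hφ hs
      exact h Y (KOp (Psi.Sp Psi.branch)) mY (rightRegular _) φ
        (ContinuousLinearMap.id ℂ _) hφ (fun _ _ => rfl) hs
    exact not_KRightProjective_psi h'

end Pool.Agent.Results.MP_e07d6f_an.NotProjectiveOverItself
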